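import Mathlib
import Pool.Agent.Helper426.KS.Pairs
import Pool.Agent.Helper426.KS.Cyc
import Pool.Agent.Helper426.KS.TwoVal

set_option autoImplicit false

namespace Pool.Agent.Results.MP_4b686f_co.ExactAndBounds

/-- `f n k`: the least number of `k`-element subsets with strictly positive sum, over all choices
of real numbers `x_i` (`i` in `Fin n`) whose total is strictly positive. -/
noncomputable def f (n k : ℕ) : ℕ :=
  sInf {c : ℕ | ∃ x : Fin n → ℝ, 0 < ∑ i, x i ∧
    c = ((Finset.univ.powersetCard k).filter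
      (fun S : Finset (Fin n) => 0 < ∑ i ∈ S, x i)).card}

open Pool.Agent.H426.KS Finset

lemma f_le {n k : ℕ} (x : Fin n → ℝ) (hx : 0 < ∑ i, x i) : f n k ≤ cnt k univ x :=
  Nat.sInf_le ⟨x, hx, rfl⟩

lemma f_attained {n : ℕ} (hn : 0 < n) (k : ℕ) :
    ∃ x : Fin n → ℝ, 0 < ∑ i, x i ∧ f n k = cnt k univ x := by
  have hne : {c : ℕ | ∃ x : Fin n → ℝ, 0 < ∑ i, x i ∧
      c = ((Finset.univ.powersetCard k).filter
        (fun S : Finset (Fin n) => 0 < ∑ i ∈ S, x i)).card}.Nonempty := by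
    refine ⟨_, fun _ => 1, ?_, rfl⟩
    rw [sum_const, card_univ, Fintype.card_fin, nsmul_eq_mul, mul_one]
    exact_mod_cast hn
  obtain ⟨x, hx, h⟩ := Nat.sInf_mem hne
  exact ⟨x, hx, h⟩

lemma dual_le {n k r : ℕ} (hk : 0 < k) (hr : 0 < r) (h : k + r = n) : f n r ≤ f n k := by
  obtain ⟨x, hx, hf⟩ := f_attained (n := n) (by omega) k
  obtain ⟨z, hz, hc⟩ := dual hk hr h x hx
  rw [hf, ← hc]
  exact f_le z hz

lemma dual_eq {n k : ℕ} (hk : 1 ≤ k) (hkn : k < n) : f n (n - k) = f n k :=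
  le_antisymm (dual_le hk (by omega) (by omega)) (dual_le (by omega) hk (by omega))

lemma upper_f {n k s : ℕ} (hk : 1 ≤ k) (h : s * k < n) : f n k ≤ (n - s).choose k := by
  obtain ⟨x, hx, hc⟩ := upper hk h
  exact (f_le x hx).trans hc

lemma odd_eq {k : ℕ} (hk : 1 ≤ k) : f (2 * k + 1) k = (2 * k - 1).choose k := by
  obtain ⟨m, rfl⟩ : ∃ m, k = m + 1 := ⟨k - 1, by omega⟩
  apply le_antisymm
  · have := upper_f (n := 2 * (m + 1) + 1) (k := m + 1) (s := 2) hk (by omega)
    exact this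
  · obtain ⟨x, hx, hf⟩ := f_attained (n := 2 * (m + 1) + 1) (by omega) (m + 1)
    rw [hf]
    exact odd_lower x hx

/-- the star: one large element, the others `-1` -/
lemma star {n k : ℕ} (hk : 1 ≤ k) (hkn : k ≤ n) : f n k ≤ (n - 1).choose (k - 1) := by
  obtain ⟨m, rfl⟩ : ∃ m, n = m + 1 := ⟨n - 1, by omega⟩
  have hx : 0 < ∑ i : Fin (m + 1), (if i = 0 then ((m : ℝ) + 1) else -1) := by
    rw [Fin.sum_univ_succ]
    simp [Fin.succ_ne_zero]
  refine (f_le _ hx).trans ?_
  unfold cnt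
  have hsub : ((univ.powersetCard k).filter (fun S : Finset (Fin (m + 1)) =>
      0 < ∑ i ∈ S, (if i = 0 then ((m : ℝ) + 1) else -1))) ⊆
      ((univ.erase (0 : Fin (m + 1))).powersetCard (k - 1)).image (fun S => insert 0 S) := by
    intro A hA
    simp only [mem_filter, mem_powersetCard, subset_univ, true_and] at hA
    have h0 : (0 : Fin (m + 1)) ∈ A := by
      by_contra h0
      have h1 : ∑ i ∈ A, (if i = 0 then ((m : ℝ) + 1) else -1) ≤ 0 := by
        apply sum_nonpos
        intro i hi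
        have : i ≠ 0 := by rintro rfl; exact h0 hi
        rw [if_neg this]; norm_num
      linarith [hA.2]
    rw [mem_image]
    refine ⟨A.erase 0, ?_, insert_erase h0⟩
    rw [mem_powersetCard]
    exact ⟨erase_subset_erase _ (subset_univ _), by rw [card_erase_of_mem h0, hA.1]⟩
  refine (card_le_card hsub).trans (card_image_le.trans ?_)
  rw [card_powersetCard, card_erase_of_mem (mem_univ _), card_univ, Fintype.card_fin]

lemma two_eq {n : ℕ} (hn : 2 ≤ n) :
    f n 2 = if n = 3 then 1 else if n = 5 then 3 else n - 1 := by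
  apply le_antisymm
  · split_ifs with h3 h5
    · subst h3
      have := upper_f (n := 3) (k := 2) (s := 1) (by norm_num) (by norm_num)
      simpa using this
    · subst h5
      have := upper_f (n := 5) (k := 2) (s := 2) (by norm_num) (by norm_num)
      have h : (5 - 2).choose 2 = 3 := by decide
      rw [h] at this
      exact this
    · have := star (n := n) (k := 2) (by norm_num) hn
      simpa using this
  · obtain ⟨x, hx, hf⟩ := f_attained (n := n) (by omega) 2
    rw [hf]
    exact pairs_lower n univ x (by rw [card_univ, Fintype.card_fin]) hn hx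

lemma cnt_le_choose {ι : Type*} [DecidableEq ι] (k : ℕ) (s : Finset ι) (x : ι → ℝ) :
    cnt k s x ≤ s.card.choose k := by
  unfold cnt
  rw [← card_powersetCard]
  exact card_le_card (filter_subset _ _)

lemma mono_f {n k : ℕ} (hk : 1 ≤ k) (hn : 1 ≤ n) : f n k ≤ f (n + 1) k := by
  obtain ⟨x, hx, hf⟩ := f_attained (n := n + 1) (by omega) k
  rw [hf]
  by_cases h : ∀ i, 0 < x i
  · rw [cnt_all_pos hk univ x (fun i _ => h i), card_univ, Fintype.card_fin]
    obtain ⟨y, hy, hf'⟩ := f_attained (n := n) hn k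
    rw [hf']
    refine (cnt_le_choose k univ y).trans ?_
    rw [card_univ, Fintype.card_fin]
    exact Nat.choose_le_choose _ (by omega)
  · push Not at h
    obtain ⟨c, hc⟩ := h
    have hsum : 0 < ∑ i, x (c.succAbove i) := by
      rw [Fin.sum_univ_succAbove x c] at hx
      linarith
    refine (f_le (k := k) (fun i => x (c.succAbove i)) hsum).trans ?_
    unfold cnt
    apply card_le_card_of_injOn (fun A => A.map c.succAboveEmb)
    · intro A hA
      simp only [coe_filter, mem_powersetCard, subset_univ, true_and,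
        Set.mem_ofPred_eq] at hA ⊢
      refine ⟨by rw [card_map]; exact hA.1, ?_⟩
      rw [sum_map]
      exact hA.2
    · intro A _ B _ hAB
      exact map_injective _ hAB

lemma gcd_lower {n k : ℕ} (hk : 1 ≤ k) (hkn : k ≤ n) :
    Nat.gcd n k * n.choose k ≤ n * f n k := by
  obtain ⟨x, hx, hf⟩ := f_attained (n := n) (by omega) k
  have hg : 0 < Nat.gcd n k := Nat.gcd_pos_of_pos_right n hk
  obtain ⟨n', hn'⟩ := Nat.gcd_dvd_left n k
  obtain ⟨k', hk'⟩ := Nat.gcd_dvd_right n k
  have hk'0 : 0 < k' := by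
    rcases Nat.eq_zero_or_pos k' with h | h
    · rw [h, mul_zero] at hk'; omega
    · exact h
  have := cyclic_lower hn' hk' hg hk'0 hkn x hx
  rw [hf]
  calc Nat.gcd n k * n.choose k ≤ Nat.gcd n k * (n' * cnt k univ x) :=
        Nat.mul_le_mul_left _ this
    _ = (Nat.gcd n k * n') * cnt k univ x := by ring
    _ = n * cnt k univ x := by rw [← hn']

lemma dvd_eq {n k : ℕ} (hk : 1 ≤ k) (hkn : k ≤ n) (h : k ∣ n) :
    f n k = (n - 1).choose (k - 1) := by
  apply le_antisymm (star hk hkn)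
  have h1 := gcd_lower hk hkn
  rw [Nat.gcd_eq_right h] at h1
  obtain ⟨m, rfl⟩ : ∃ m, n = m + 1 := ⟨n - 1, by omega⟩
  obtain ⟨j, rfl⟩ : ∃ j, k = j + 1 := ⟨k - 1, by omega⟩
  have h2 := Nat.add_one_mul_choose_eq m j
  have h3 : (m + 1) * m.choose j ≤ (m + 1) * f (m + 1) (j + 1) := by
    calc (m + 1) * m.choose j = (j + 1) * (m + 1).choose (j + 1) := by rw [h2]; ring
      _ ≤ _ := h1
  exact Nat.le_of_mul_le_mul_left h3 (Nat.succ_pos m)

lemma codvd_eq {n k : ℕ} (hk : 1 ≤ k) (hkn : k < n) (h : (n - k) ∣ n) :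
    f n k = (n - 1).choose k := by
  rw [← dual_eq hk hkn, dvd_eq (by omega) (by omega) h]
  have : n - k - 1 = n - 1 - k := by omega
  rw [this]
  exact Nat.choose_symm (by omega)

lemma two_valued_upper {n k a : ℕ} (ha : 1 ≤ a) (han : a ≤ n) :
    f n k ≤ ∑ i ∈ (range (k + 1)).filter (fun i => a * k ≤ n * i),
      a.choose i * (n - a).choose (k - i) := by
  obtain ⟨x, hx, hc⟩ := two_valued (k := k) (show 0 < a from ha) han
  exact (f_le x hx).trans hc

/-- `n = 3k - 1` -/
lemma three_upper {k : ℕ} (hk : 2 ≤ k) :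
    f (3 * k - 1) k + (3 * k - 4).choose (k - 2) ≤ (3 * k - 2).choose (k - 1) := by
  obtain ⟨m, rfl⟩ : ∃ m, k = m + 2 := ⟨k - 2, by omega⟩
  have e1 : 3 * (m + 2) - 1 = 3 * m + 5 := by omega
  have e2 : 3 * (m + 2) - 4 = 3 * m + 2 := by omega
  have e3 : 3 * (m + 2) - 2 = 3 * m + 4 := by omega
  have e4 : m + 2 - 1 = m + 1 := by omega
  rw [e1, e2, e3, e4, Nat.add_sub_cancel]
  have h := two_valued_upper (n := 3 * m + 5) (k := m + 2) (a := 3) (by norm_num) (by omega)
  have e5 : 3 * m + 5 - 3 = 3 * m + 2 := by omega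
  rw [e5] at h
  have hle : ∑ i ∈ (range (m + 2 + 1)).filter (fun i => 3 * (m + 2) ≤ (3 * m + 5) * i),
      Nat.choose 3 i * (3 * m + 2).choose (m + 2 - i) ≤
      ∑ i ∈ ({2, 3} : Finset ℕ), Nat.choose 3 i * (3 * m + 2).choose (m + 2 - i) * 
        (if i ≤ m + 2 then 1 else 0) := by
    have hsub : ∀ i ∈ (range (m + 2 + 1)).filter (fun i => 3 * (m + 2) ≤ (3 * m + 5) * i),
        i ∉ ({2, 3} : Finset ℕ) → Nat.choose 3 i * (3 * m + 2).choose (m + 2 - i) = 0 := by
      intro i hi hi2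
      rw [mem_filter, mem_range] at hi
      simp only [mem_insert, mem_singleton, not_or] at hi2
      have : 4 ≤ i := by
        by_contra hlt
        have : i = 0 ∨ i = 1 := by omega
        rcases this with rfl | rfl
        · omega
        · omega
      rw [Nat.choose_eq_zero_of_lt (by omega), zero_mul]
    calc ∑ i ∈ (range (m + 2 + 1)).filter (fun i => 3 * (m + 2) ≤ (3 * m + 5) * i),
          Nat.choose 3 i * (3 * m + 2).choose (m + 2 - i)
        ≤ ∑ i ∈ ((range (m + 2 + 1)).filter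
            (fun i => 3 * (m + 2) ≤ (3 * m + 5) * i)) ∩ ({2, 3} : Finset ℕ),
          Nat.choose 3 i * (3 * m + 2).choose (m + 2 - i) := by
          apply le_of_eq
          symm
          apply sum_subset inter_subset_left
          intro i hi hi2
          apply hsub i hi
          intro hmem
          exact hi2 (mem_inter.2 ⟨hi, hmem⟩)
      _ = ∑ i ∈ ((range (m + 2 + 1)).filter
            (fun i => 3 * (m + 2) ≤ (3 * m + 5) * i)) ∩ ({2, 3} : Finset ℕ),
          Nat.choose 3 i * (3 * m + 2).choose (m + 2 - i) * (if i ≤ m + 2 then 1 else 0) := by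
          apply sum_congr rfl
          intro i hi
          rw [mem_inter, mem_filter, mem_range] at hi
          rw [if_pos (by omega), mul_one]
      _ ≤ _ := by
          apply sum_le_sum_of_subset
          exact inter_subset_right
  have h2 := h.trans hle
  rw [sum_pair (by norm_num)] at h2
  have e6 : m + 2 - 2 = m := by omega
  rw [e6, if_pos (by omega)] at h2
  have e7 : Nat.choose 3 2 = 3 := by decide
  have e8 : Nat.choose 3 3 = 1 := by decide
  rw [e7, e8] at h2
  have h3 : (3 * m + 2).choose (m + 1) = 2 * (3 * m + 2).choose m := by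
    have := Nat.choose_succ_right_eq (3 * m + 2) m
    have e : 3 * m + 2 - m = 2 * (m + 1) := by omega
    rw [e] at this
    have h4 : (3 * m + 2).choose (m + 1) * (m + 1) = (2 * (3 * m + 2).choose m) * (m + 1) := by
      rw [this]; ring
    exact Nat.eq_of_mul_eq_mul_right (Nat.succ_pos m) h4
  have h5 : (3 * m + 4).choose (m + 1) = (3 * m + 3).choose m + (3 * m + 3).choose (m + 1) :=
    Nat.choose_succ_succ' (3 * m + 3) m
  have h6 : (3 * m + 3).choose (m + 1) = (3 * m + 2).choose m + (3 * m + 2).choose (m + 1) :=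
    Nat.choose_succ_succ' (3 * m + 2) m
  rcases Nat.eq_zero_or_pos m with hm | hm
  · subst hm
    simp at h2 h5 ⊢
    omega
  · obtain ⟨j, rfl⟩ : ∃ j, m = j + 1 := ⟨m - 1, by omega⟩
    have h7 : (3 * (j + 1) + 3).choose (j + 1) =
        (3 * (j + 1) + 2).choose j + (3 * (j + 1) + 2).choose (j + 1) :=
      Nat.choose_succ_succ' (3 * (j + 1) + 2) j
    have e9 : j + 1 + 2 - 3 = j := by omega
    rw [e9, if_pos (by omega)] at h2
    omega

/-- Symmetry; exact values for `n = 2k+1`, `n = 2k-1`, `k ∣ n`, `n-k ∣ n`, `k = 2`, `k = n-2`;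
monotonicity in `n`; a general lower bound and two general families of upper bounds. -/
theorem result :
    (∀ n k : ℕ, 1 ≤ k → k < n → f n (n - k) = f n k) ∧
    (∀ k : ℕ, 1 ≤ k → f (2 * k + 1) k = (2 * k - 1).choose k) ∧
    (∀ k : ℕ, 2 ≤ k → f (2 * k - 1) k = (2 * k - 3).choose (k - 1)) ∧
    (∀ n k : ℕ, 1 ≤ k → k ≤ n → k ∣ n → f n k = (n - 1).choose (k - 1)) ∧
    (∀ n k : ℕ, 1 ≤ k → k < n → (n - k) ∣ n → f n k = (n - 1).choose k) ∧
    (∀ n : ℕ, 2 ≤ n → f n 2 = if n = 3 then 1 else if n = 5 then 3 else n - 1) ∧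
    (∀ n : ℕ, 3 ≤ n → f n (n - 2) = if n = 3 then 1 else if n = 5 then 3 else n - 1) ∧
    (∀ n k : ℕ, 1 ≤ k → 1 ≤ n → f n k ≤ f (n + 1) k) ∧
    (∀ n k : ℕ, 1 ≤ k → k ≤ n → Nat.gcd n k * n.choose k ≤ n * f n k) ∧
    (∀ n k s : ℕ, 1 ≤ k → s * k < n → f n k ≤ (n - s).choose k) ∧
    (∀ n k a : ℕ, 1 ≤ a → a ≤ n → f n k ≤
      ∑ i ∈ (range (k + 1)).filter (fun i => a * k ≤ n * i),
        a.choose i * (n - a).choose (k - i)) ∧
    (∀ k : ℕ, 2 ≤ k →
      f (3 * k - 1) k + (3 * k - 4).choose (k - 2) ≤ (3 * k - 2).choose (k - 1)) := by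
  refine ⟨fun n k hk hkn => dual_eq hk hkn, fun k hk => odd_eq hk, ?_,
    fun n k hk hkn h => dvd_eq hk hkn h, fun n k hk hkn h => codvd_eq hk hkn h,
    fun n hn => two_eq hn, ?_, fun n k hk hn => mono_f hk hn,
    fun n k hk hkn => gcd_lower hk hkn, fun n k s hk h => upper_f hk h,
    fun n k a ha han => two_valued_upper ha han, fun k hk => three_upper hk⟩
  · intro k hk
    obtain ⟨m, rfl⟩ : ∃ m, k = m + 1 := ⟨k - 1, by omega⟩
    have h1 := odd_eq (k := m) (by omega)
    have h2 := dual_eq (n := 2 * m + 1) (k := m) (by omega) (by omega)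
    have e1 : 2 * (m + 1) - 1 = 2 * m + 1 := by omega
    have e2 : 2 * m + 1 - m = m + 1 := by omega
    have e3 : 2 * (m + 1) - 3 = 2 * m - 1 := by omega
    rw [e1, e3, Nat.add_sub_cancel, ← h1, ← h2, e2]
  · intro n hn
    rw [dual_eq (n := n) (k := 2) (by norm_num) (by omega)]
    exact two_eq (by omega)

end Pool.Agent.Results.MP_4b686f_co.ExactAndBounds
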