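import Mathlib
import Pool.Agent.Helper426.KS.Pairs

set_option autoImplicit false

namespace Pool.Agent.Results.MP_4b686f_co.ExactFamilies

/-- `f n k`: the least number of `k`-element subsets with strictly positive sum, over all choices
of real numbers `x_i` (`i` in `Fin n`) whose total is strictly positive. -/
noncomputable def f (n k : ℕ) : ℕ :=
  sInf {c : ℕ | ∃ x : Fin n → ℝ, 0 < ∑ i, x i ∧
    c = ((Finset.univ.powersetCard k).filter
      (fun S : Finset (Fin n) => 0 < ∑ i ∈ S, x i)).card}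

open Pool.Agent.H426.KS Finset

lemma f_le {n k : ℕ} (x : Fin n → ℝ) (hx : 0 < ∑ i, x i) : f n k ≤ cnt k univ x :=
  Nat.sInf_le ⟨x, hx, rfl⟩

lemma f_attained {n : ℕ} (hn : 0 < n) (k : ℕ) :
    ∃ x : Fin n → ℝ, 0 < ∑ i, x i ∧ f n k = cnt k univ x := by
  have hne : {c : ℕ | ∃ x : Fin n → ℝ, 0 < ∑ i, x i ∧
      c = ((Finset.univ.powersetCard k).filter
        (fun S : Finset (Fin n) => 0 < ∑ i ∈ S, x i)).card}.Nonempty := by
    refine ⟨_, fun _ => 1, ?_, rfl⟩
    rw [sum_const, card_univ, Fintype.card_fin, nsmul_eq_mul, mul_one]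
    exact_mod_cast hn
  obtain ⟨x, hx, h⟩ := Nat.sInf_mem hne
  exact ⟨x, hx, h⟩

lemma dual_le {n k r : ℕ} (hk : 0 < k) (hr : 0 < r) (h : k + r = n) : f n r ≤ f n k := by
  obtain ⟨x, hx, hf⟩ := f_attained (n := n) (by omega) k
  obtain ⟨z, hz, hc⟩ := dual hk hr h x hx
  rw [hf, ← hc]
  exact f_le z hz

lemma dual_eq {n k : ℕ} (hk : 1 ≤ k) (hkn : k < n) : f n (n - k) = f n k :=
  le_antisymm (dual_le hk (by omega) (by omega)) (dual_le (by omega) hk (by omega))

lemma upper_f {n k s : ℕ} (hk : 1 ≤ k) (h : s * k < n) : f n k ≤ (n - s).choose k := by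
  obtain ⟨x, hx, hc⟩ := upper hk h
  exact (f_le x hx).trans hc

lemma odd_eq {k : ℕ} (hk : 1 ≤ k) : f (2 * k + 1) k = (2 * k - 1).choose k := by
  obtain ⟨m, rfl⟩ : ∃ m, k = m + 1 := ⟨k - 1, by omega⟩
  apply le_antisymm
  · have := upper_f (n := 2 * (m + 1) + 1) (k := m + 1) (s := 2) hk (by omega)
    exact this
  · obtain ⟨x, hx, hf⟩ := f_attained (n := 2 * (m + 1) + 1) (by omega) (m + 1)
    rw [hf]
    exact odd_lower x hx

/-- the star: one large element, the others `-1` -/
lemma star {n k : ℕ} (hk : 1 ≤ k) (hkn : k ≤ n) : f n k ≤ (n - 1).choose (k - 1) := by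
  obtain ⟨m, rfl⟩ : ∃ m, n = m + 1 := ⟨n - 1, by omega⟩
  have hx : 0 < ∑ i : Fin (m + 1), (if i = 0 then ((m : ℝ) + 1) else -1) := by
    rw [Fin.sum_univ_succ]
    simp [Fin.succ_ne_zero]
  refine (f_le _ hx).trans ?_
  unfold cnt
  have hsub : ((univ.powersetCard k).filter (fun S : Finset (Fin (m + 1)) =>
      0 < ∑ i ∈ S, (if i = 0 then ((m : ℝ) + 1) else -1))) ⊆
      ((univ.erase (0 : Fin (m + 1))).powersetCard (k - 1)).image (fun S => insert 0 S) := by
    intro A hA
    simp only [mem_filter, mem_powersetCard, subset_univ, true_and] at hA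
    have h0 : (0 : Fin (m + 1)) ∈ A := by
      by_contra h0
      have h1 : ∑ i ∈ A, (if i = 0 then ((m : ℝ) + 1) else -1) ≤ 0 := by
        apply sum_nonpos
        intro i hi
        have : i ≠ 0 := by rintro rfl; exact h0 hi
        rw [if_neg this]; norm_num
      linarith [hA.2]
    rw [mem_image]
    refine ⟨A.erase 0, ?_, insert_erase h0⟩
    rw [mem_powersetCard]
    exact ⟨erase_subset_erase _ (subset_univ _), by rw [card_erase_of_mem h0, hA.1]⟩
  refine (card_le_card hsub).trans (card_image_le.trans ?_)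
  rw [card_powersetCard, card_erase_of_mem (mem_univ _), card_univ, Fintype.card_fin]

lemma two_eq {n : ℕ} (hn : 2 ≤ n) :
    f n 2 = if n = 3 then 1 else if n = 5 then 3 else n - 1 := by
  apply le_antisymm
  · split_ifs with h3 h5
    · subst h3
      have := upper_f (n := 3) (k := 2) (s := 1) (by norm_num) (by norm_num)
      simpa using this
    · subst h5
      have := upper_f (n := 5) (k := 2) (s := 2) (by norm_num) (by norm_num)
      have h : (5 - 2).choose 2 = 3 := by decide
      rw [h] at this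
      exact this
    · have := star (n := n) (k := 2) (by norm_num) hn
      simpa using this
  · obtain ⟨x, hx, hf⟩ := f_attained (n := n) (by omega) 2
    rw [hf]
    exact pairs_lower n univ x (by rw [card_univ, Fintype.card_fin]) hn hx

lemma cnt_le_choose {ι : Type*} [DecidableEq ι] (k : ℕ) (s : Finset ι) (x : ι → ℝ) :
    cnt k s x ≤ s.card.choose k := by
  unfold cnt
  rw [← card_powersetCard]
  exact card_le_card (filter_subset _ _)

lemma mono_f {n k : ℕ} (hk : 1 ≤ k) (hn : 1 ≤ n) : f n k ≤ f (n + 1) k := by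
  obtain ⟨x, hx, hf⟩ := f_attained (n := n + 1) (by omega) k
  rw [hf]
  by_cases h : ∀ i, 0 < x i
  · rw [cnt_all_pos hk univ x (fun i _ => h i), card_univ, Fintype.card_fin]
    obtain ⟨y, hy, hf'⟩ := f_attained (n := n) hn k
    rw [hf']
    refine (cnt_le_choose k univ y).trans ?_
    rw [card_univ, Fintype.card_fin]
    exact Nat.choose_le_choose _ (by omega)
  · push Not at h
    obtain ⟨c, hc⟩ := h
    have hsum : 0 < ∑ i, x (c.succAbove i) := by
      rw [Fin.sum_univ_succAbove x c] at hx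
      linarith
    refine (f_le (k := k) (fun i => x (c.succAbove i)) hsum).trans ?_
    unfold cnt
    apply card_le_card_of_injOn (fun A => A.map c.succAboveEmb)
    · intro A hA
      simp only [coe_filter, mem_powersetCard, subset_univ, true_and,
        Set.mem_ofPred_eq] at hA ⊢
      refine ⟨by rw [card_map]; exact hA.1, ?_⟩
      rw [sum_map]
      exact hA.2
    · intro A _ B _ hAB
      exact map_injective _ hAB

/-- The symmetry `f(n,n-k) = f(n,k)`; the exact values for `n = 2k+1` and `n = 2k-1`; the exact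
values of `f(n,2)` and `f(n,n-2)` for all `n`; monotonicity in `n`; a family of upper bounds. -/
theorem result :
    (∀ n k : ℕ, 1 ≤ k → k < n → f n (n - k) = f n k) ∧
    (∀ k : ℕ, 1 ≤ k → f (2 * k + 1) k = (2 * k - 1).choose k) ∧
    (∀ k : ℕ, 2 ≤ k → f (2 * k - 1) k = (2 * k - 3).choose (k - 1)) ∧
    (∀ n : ℕ, 2 ≤ n → f n 2 = if n = 3 then 1 else if n = 5 then 3 else n - 1) ∧
    (∀ n : ℕ, 3 ≤ n → f n (n - 2) = if n = 3 then 1 else if n = 5 then 3 else n - 1) ∧
    (∀ n k : ℕ, 1 ≤ k → 1 ≤ n → f n k ≤ f (n + 1) k) ∧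
    (∀ n k s : ℕ, 1 ≤ k → s * k < n → f n k ≤ (n - s).choose k) := by
  refine ⟨fun n k hk hkn => dual_eq hk hkn, fun k hk => odd_eq hk, ?_,
    fun n hn => two_eq hn, ?_, fun n k hk hn => mono_f hk hn, fun n k s hk h => upper_f hk h⟩
  · intro k hk
    obtain ⟨m, rfl⟩ : ∃ m, k = m + 1 := ⟨k - 1, by omega⟩
    have h1 := odd_eq (k := m) (by omega)
    have h2 := dual_eq (n := 2 * m + 1) (k := m) (by omega) (by omega)
    have e1 : 2 * (m + 1) - 1 = 2 * m + 1 := by omega
    have e2 : 2 * m + 1 - m = m + 1 := by omega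
    have e3 : 2 * (m + 1) - 3 = 2 * m - 1 := by omega
    rw [e1, e3, Nat.add_sub_cancel, ← h1, ← h2, e2]
  · intro n hn
    rw [dual_eq (n := n) (k := 2) (by norm_num) (by omega)]
    exact two_eq (by omega)

end Pool.Agent.Results.MP_4b686f_co.ExactFamilies
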